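import Pool.Agent.N173.BG.Stm

/-!
Project BG (helper173), part MAX: a maximal independent tuple (helper353).
-/

set_option autoImplicit false

namespace Pool.Agent.N353.BG

open Finset Pool.Agent.N173.BG

theorem bound {N : ℕ} [NeZero N] {H : ℕ} (hH : 2 ≤ H) (k : ℕ) (Λ : Fin k → ZMod N)
    (hΛ : Ind H Λ) : k ≤ N := by
  classical
  have hinj : Function.Injective (fun s : Finset (Fin k) => ∑ i ∈ s, Λ i) := by
    intro s t hst
    have h := hΛ (fun i => (if i ∈ s then 1 else 0) - (if i ∈ t then 1 else 0)) (by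
      intro i
      have h2 : (2 : ℤ) ≤ H := by exact_mod_cast hH
      by_cases h1 : i ∈ s <;> by_cases h3 : i ∈ t
      · rw [if_pos h1, if_pos h3, sub_self, abs_zero]
        linarith
      · rw [if_pos h1, if_neg h3, sub_zero, abs_one]
        linarith
      · rw [if_neg h1, if_pos h3, zero_sub, abs_neg, abs_one]
        linarith
      · rw [if_neg h1, if_neg h3, sub_self, abs_zero]
        linarith) (by
      have e : ∀ i, (((if i ∈ s then 1 else 0) - (if i ∈ t then 1 else 0) : ℤ) : ZMod N) * Λ i =
          (if i ∈ s then Λ i else 0) - (if i ∈ t then Λ i else 0) := by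
        intro i
        by_cases h1 : i ∈ s <;> by_cases h3 : i ∈ t <;> simp [h1, h3]
      rw [sum_congr rfl fun i _ => e i, sum_sub_distrib, ← sum_filter, ← sum_filter]
      have e1 : univ.filter (fun i => i ∈ s) = s := by ext; simp
      have e2 : univ.filter (fun i => i ∈ t) = t := by ext; simp
      rw [e1, e2]
      exact sub_eq_zero.2 hst)
    ext i
    have h2 := congrFun h i
    by_cases h1 : i ∈ s <;> by_cases h3 : i ∈ t
    · simp [h1, h3]
    · simp [h1, h3] at h2
    · simp [h1, h3] at h2
    · simp [h1, h3]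
  have h2 := Fintype.card_le_of_injective _ hinj
  rw [Fintype.card_finset, Fintype.card_fin, ZMod.card] at h2
  exact (Nat.lt_two_pow_self).le.trans h2

theorem t_MAX : S_MAX := by
  classical
  intro N _ G H hH
  let P : ℕ → Prop := fun k => ∃ Λ : Fin k → ZMod N, (∀ i, Λ i ∈ G) ∧ Ind H Λ
  have hP0 : P 0 := ⟨Fin.elim0, fun i => i.elim0, fun m _ _ => funext fun i => i.elim0⟩
  obtain ⟨k, hPk, hmax⟩ : ∃ k, P k ∧ ¬ P (k + 1) := by
    refine ⟨Nat.findGreatest P N, Nat.findGreatest_spec (Nat.zero_le N) hP0, fun h => ?_⟩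
    have h1 : Nat.findGreatest P N + 1 ≤ N := by
      obtain ⟨Λ, _, h2⟩ := h
      exact bound hH _ Λ h2
    have h2 := Nat.le_findGreatest h1 h
    omega
  obtain ⟨Λ, hΛG, hΛI⟩ := hPk
  refine ⟨k, Λ, hΛG, hΛI, fun g hg => ?_⟩
  have hnot : ¬ Ind H (Fin.snoc (α := fun _ => ZMod N) Λ g : Fin (k + 1) → ZMod N) := fun h =>
    hmax ⟨_, fun i => by
      refine Fin.lastCases ?_ (fun j => ?_) i
      · rw [Fin.snoc_last]
        exact hg
      · rw [Fin.snoc_castSucc]
        exact hΛG j, h⟩
  unfold Ind at hnot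
  push Not at hnot
  obtain ⟨m', hm', hsum, hne⟩ := hnot
  rw [Fin.sum_univ_castSucc] at hsum
  simp only [Fin.snoc_castSucc, Fin.snoc_last] at hsum
  have hl : m' (Fin.last k) ≠ 0 := by
    intro h0
    apply hne
    rw [h0, Int.cast_zero, zero_mul, add_zero] at hsum
    have h1 := hΛI (fun i => m' i.castSucc) (fun i => hm' _) hsum
    funext i
    refine Fin.lastCases h0 (fun j => congrFun h1 j) i
  rcases lt_or_gt_of_ne hl with h | h
  · refine ⟨-m' (Fin.last k), fun i => m' i.castSucc, by omega, ?_, fun i => hm' _, ?_⟩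
    · have := hm' (Fin.last k)
      rw [abs_of_neg h] at this
      exact this
    · push_cast
      linear_combination -hsum
  · refine ⟨m' (Fin.last k), fun i => -m' i.castSucc, by omega, ?_, fun i => ?_, ?_⟩
    · have := hm' (Fin.last k)
      rw [abs_of_pos h] at this
      exact this
    · rw [abs_neg]
      exact hm' _
    · simp only [Int.cast_neg, neg_mul, sum_neg_distrib]
      linear_combination hsum

end Pool.Agent.N353.BG
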